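import Pool.Agent.R784.AP.Sym

set_option autoImplicit false

/-!
MP_abc6c1, Q1 and Q2 (both answers are negative): on the field with `32` elements there is an APN
map (the inverse function) such that no CCZ-equivalent map, in particular no EA-equivalent map, has
as image set a nontrivial relative difference set, relative to any subgroup.
-/

namespace Pool.Agent.Results.MP_abc6c1_co.InverseF32

open Pool.Agent.R132.CCZ Pool.Agent.R784.AP

/-- almost perfect nonlinear: `f (x + a) + f x = b` has at most two solutions for `a ≠ 0` -/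
def IsAPN {K : Type*} [Field K] [Fintype K] [DecidableEq K] (f : K → K) : Prop :=
  ∀ a b : K, a ≠ 0 → (Finset.univ.filter fun x => f (x + a) + f x = b).card ≤ 2

/-- `R` is a relative difference set relative to the subgroup `N`: for some `l` the differences
`r - r'` with `r ≠ r'` in `R` represent each element outside `N` exactly `l` times and no nonzero
element of `N` -/
def IsRDS {G : Type*} [AddCommGroup G] [DecidableEq G] (R : Finset G) (N : AddSubgroup G) : Prop :=
  ∃ l : ℕ, (∀ z : G, z ∉ N →
    ((R ×ˢ R).filter fun p => p.1 ≠ p.2 ∧ p.1 - p.2 = z).card = l) ∧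
    ∀ z ∈ N, z ≠ 0 → ((R ×ˢ R).filter fun p => p.1 ≠ p.2 ∧ p.1 - p.2 = z).card = 0

/-- the image set of `f` is a nontrivial relative difference set relative to some subgroup -/
def GivesRDS {K : Type*} [Field K] [Fintype K] [DecidableEq K] (f : K → K) : Prop :=
  ∃ N : AddSubgroup K, IsRDS (Finset.univ.image f) N ∧ 2 ≤ (Finset.univ.image f).card ∧
    (Finset.univ.image f).card ≤ Fintype.card K - 2

/-- EA-equivalence: `G = A ∘ F ∘ B + C` with `A`, `B` affine permutations and `C` affine (the linear
maps over the prime field are the additive maps) -/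
def EAEquiv {K : Type*} [Field K] (F G : K → K) : Prop :=
  ∃ (A B : K ≃+ K) (C : K →+ K) (a b c : K), ∀ x, G x = (A (F (B x + b)) + a) + (C x + c)

/-- CCZ-equivalence: an affine permutation of `K × K` maps the graph of `F` onto that of `G` -/
def CCZEquiv {K : Type*} [Field K] (F G : K → K) : Prop :=
  ∃ (A : (K × K) ≃+ (K × K)) (w : K × K),
    (fun p => A p + w) '' {p : K × K | p.2 = F p.1} = {p : K × K | p.2 = G p.1}

/-! ### Step 1: a nonzero element not represented -/

theorem exists_c {K : Type*} [Field K] [Fintype K] [DecidableEq K] (hK : Fintype.card K = 32)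
    {g : K → K} (h : GivesRDS g) : ∃ c : K, c ≠ 0 ∧ ∀ x y, g x - g y ≠ c := by
  obtain ⟨N, ⟨l, h1, h2⟩, h3, h4⟩ := h
  set R := Finset.univ.image g with hR
  by_cases hN : N = ⊥
  · exfalso
    subst hN
    have key : ((R ×ˢ R).filter fun p => p.1 ≠ p.2).card = 31 * l := by
      have e1 : ((R ×ˢ R).filter fun p => p.1 ≠ p.2).card = ∑ z ∈ Finset.univ.erase (0 : K),
          (((R ×ˢ R).filter fun p => p.1 ≠ p.2).filter fun p => p.1 - p.2 = z).card := by
        apply Finset.card_eq_sum_card_fiberwise
        intro p hp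
        rw [Finset.mem_coe, Finset.mem_filter] at hp
        simp only [Finset.coe_erase, Finset.coe_univ, Set.mem_sdiff, Set.mem_univ,
          Set.mem_singleton_iff, true_and]
        exact sub_ne_zero.2 hp.2
      rw [e1]
      have e2 : ∀ z ∈ Finset.univ.erase (0 : K),
          (((R ×ˢ R).filter fun p => p.1 ≠ p.2).filter fun p => p.1 - p.2 = z).card = l := by
        intro z hz
        rw [Finset.filter_filter]
        apply h1
        rw [AddSubgroup.mem_bot]
        exact (Finset.mem_erase.1 hz).1
      rw [Finset.sum_congr rfl e2, Finset.sum_const, Finset.card_erase_of_mem (Finset.mem_univ _),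
        Finset.card_univ, hK, smul_eq_mul]
    have e3 : ((R ×ˢ R).filter fun p => p.1 ≠ p.2).card = R.card * R.card - R.card := by
      have e4 : ((R ×ˢ R).filter fun p => p.1 ≠ p.2) = R.offDiag := by
        ext ⟨a, b⟩
        simp [and_assoc]
      rw [e4, Finset.offDiag_card]
    rw [e3] at key
    rw [hK] at h4
    have h5 : 31 ∣ R.card * (R.card - 1) := by
      rw [Nat.mul_sub, mul_one, key]
      exact Dvd.intro _ rfl
    rcases (Nat.Prime.dvd_mul (by norm_num)).1 h5 with h6 | h6
    · have := Nat.le_of_dvd (by omega) h6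
      omega
    · have := Nat.le_of_dvd (by omega) h6
      omega
  · obtain ⟨⟨c, hc⟩, hc'⟩ := AddSubgroup.ne_bot_iff_exists_ne_zero.1 hN
    have hc0 : c ≠ 0 := fun h0 => hc' (Subtype.ext h0)
    refine ⟨c, hc0, fun x y hxy => ?_⟩
    have h5 := h2 c hc hc0
    rw [Finset.card_eq_zero, Finset.filter_eq_empty_iff] at h5
    refine h5 (x := (g x, g y)) ?_ ⟨?_, hxy⟩
    · rw [Finset.mem_product]
      exact ⟨Finset.mem_image_of_mem _ (Finset.mem_univ _),
        Finset.mem_image_of_mem _ (Finset.mem_univ _)⟩
    · intro h6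
      change g x = g y at h6
      rw [h6, sub_self] at hxy
      exact hc0 hxy.symm

/-! ### Step 2: EA-equivalence implies CCZ-equivalence -/

theorem ccz_of_ea {K : Type*} [Field K] {F G : K → K} (h : EAEquiv F G) : CCZEquiv F G := by
  obtain ⟨A, B, C, a, b, c, h⟩ := h
  refine ⟨⟨⟨fun p => (B.symm p.1, A p.2 + C (B.symm p.1)),
    fun q => (B q.1, A.symm (q.2 - C q.1)), fun p => ?_, fun q => ?_⟩, fun p q => ?_⟩,
    (- B.symm b, a + c - C (B.symm b)), ?_⟩
  · simp
  · simp
  · simp only [Prod.fst_add, Prod.snd_add, map_add, Prod.mk_add_mk, Prod.mk.injEq, true_and]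
    abel
  · ext ⟨u, v⟩
    simp only [Set.mem_image, Set.mem_ofPred_eq, AddEquiv.coe_mk, Equiv.coe_fn_mk, Prod.mk_add_mk,
      Prod.mk.injEq, Prod.exists]
    constructor
    · rintro ⟨x, y, rfl, h1, rfl⟩
      have h2 : x = B u + b := by
        rw [← h1]; simp
      rw [h, ← h2, ← h1]
      simp only [map_add, map_neg]
      ring
    · intro h1
      refine ⟨B u + b, F (B u + b), rfl, by simp, ?_⟩
      rw [h1, h]
      simp only [map_add, AddEquiv.symm_apply_apply]
      ring

/-! ### Step 3: a coding of the field -/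

def enc5 (a b c d e : ZMod 2) : ℕ := a.val + 2 * b.val + 4 * c.val + 8 * d.val + 16 * e.val

set_option maxRecDepth 100000 in
theorem enc5_xor : ∀ a b c d e a' b' c' d' e' : ZMod 2,
    enc5 (a + a') (b + b') (c + c') (d + d') (e + e') =
      enc5 a b c d e ^^^ enc5 a' b' c' d' e' := by decide +kernel

theorem enc5_lt : ∀ a b c d e : ZMod 2, enc5 a b c d e < 32 := by decide +kernel

set_option maxRecDepth 100000 in
theorem enc5_zero : ∀ a b c d e : ZMod 2, enc5 a b c d e = 0 →
    a = 0 ∧ b = 0 ∧ c = 0 ∧ d = 0 ∧ e = 0 := by decide +kernel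

theorem exists_coding {K : Type*} [Field K] [Fintype K] (hK : Fintype.card K = 32) :
    ∃ en : K → ℕ, (∀ x, en x < 32) ∧ (∀ x y, en (x + y) = en x ^^^ en y) ∧
      Function.Injective en ∧ ∀ i < 32, ∃ x, en x = i := by
  classical
  obtain ⟨p, hp⟩ := CharP.exists K
  obtain ⟨n, hpp, hn⟩ := FiniteField.card K p
  have hp2 : p = 2 := by
    have h1 : p ∣ 2 ^ 5 := by
      have : p ∣ p ^ (n : ℕ) := dvd_pow_self p n.pos.ne'
      rw [← hn, hK] at this
      exact this
    exact (Nat.prime_dvd_prime_iff_eq hpp Nat.prime_two).1 (hpp.dvd_of_dvd_pow h1)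
  subst hp2
  let _ : Algebra (ZMod 2) K := ZMod.algebra K 2
  have hfr : Module.finrank (ZMod 2) K = 5 := by
    have h1 := Module.card_eq_pow_finrank (K := ZMod 2) (V := K)
    rw [hK, ZMod.card] at h1
    have h2 : 2 ^ 5 = 2 ^ Module.finrank (ZMod 2) K := h1
    exact (Nat.pow_right_injective (le_refl 2) h2).symm
  let b := (Module.finBasisOfFinrankEq (ZMod 2) K hfr).equivFun
  let en : K → ℕ := fun x => enc5 (b x 0) (b x 1) (b x 2) (b x 3) (b x 4)
  have hadd : ∀ x y, en (x + y) = en x ^^^ en y := by
    intro x y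
    change enc5 (b (x + y) 0) (b (x + y) 1) (b (x + y) 2) (b (x + y) 3) (b (x + y) 4) = _
    rw [map_add]
    exact enc5_xor _ _ _ _ _ _ _ _ _ _
  have hzero : ∀ x, en x = 0 → x = 0 := by
    intro x hx
    obtain ⟨h0, h1, h2, h3, h4⟩ := enc5_zero _ _ _ _ _ hx
    apply b.injective
    rw [map_zero]
    funext i
    fin_cases i
    · exact h0
    · exact h1
    · exact h2
    · exact h3
    · exact h4
  have hinj : Function.Injective en := by
    intro x y hxy
    have h1 : en (x + y) = 0 := by rw [hadd, hxy, Nat.xor_self]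
    have h2 := hzero _ h1
    rw [← CharTwo.sub_eq_add] at h2
    exact sub_eq_zero.1 h2
  have hlt : ∀ x, en x < 32 := fun x => enc5_lt _ _ _ _ _
  refine ⟨en, hlt, hadd, hinj, ?_⟩
  have hbij : Function.Bijective (fun x : K => (⟨en x, hlt x⟩ : Fin 32)) := by
    rw [Fintype.bijective_iff_injective_and_card]
    refine ⟨fun x y hxy => hinj (Fin.mk.inj_iff.1 hxy), ?_⟩
    rw [hK, Fintype.card_fin]
  intro i hi
  obtain ⟨x, hx⟩ := hbij.2 ⟨i, hi⟩
  exact ⟨x, Fin.mk.inj_iff.1 hx⟩

/-! ### Step 4: finite checks -/

theorem tab_lt : ∀ i < 32, tab.getD i 0 < 32 := by decide +kernel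

set_option maxRecDepth 100000 in
theorem tab_apn' : ∀ a < 32, ∀ x < 32, ∀ y < 32,
    (a = 0 ∨ tab.getD (x ^^^ a) 0 ^^^ tab.getD x 0 ≠ tab.getD (y ^^^ a) 0 ^^^ tab.getD y 0 ∨
      y = x ∨ y = x ^^^ a) := by decide +kernel

theorem tab_apn {a x y : ℕ} (ha : a < 32) (hx : x < 32) (hy : y < 32) (ha0 : a ≠ 0)
    (h : tab.getD (x ^^^ a) 0 ^^^ tab.getD x 0 = tab.getD (y ^^^ a) 0 ^^^ tab.getD y 0) :
    y = x ∨ y = x ^^^ a := by
  rcases tab_apn' a ha x hx y hy with h1 | h1 | h1
  · exact absurd h1 ha0
  · exact absurd h h1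
  · exact h1

set_option maxRecDepth 100000 in
theorem out_check : ∀ i < 1024, out i = false →
    ∃ a < 32, i / 32 = tab.getD a 0 ^^^ tab.getD (a ^^^ (i % 32)) 0 := by decide +kernel

/-- **Q1 and Q2 have negative answers**, with `n = 5`. -/
theorem result (K : Type*) [Field K] [Fintype K] [DecidableEq K] (hK : Fintype.card K = 2 ^ 5) :
    ∃ f : K → K, IsAPN f ∧ (∀ g : K → K, EAEquiv f g → ¬ GivesRDS g) ∧
      ∀ g : K → K, CCZEquiv f g → ¬ GivesRDS g := by
  have hK : Fintype.card K = 32 := hK
  obtain ⟨en, hlt, hadd, hinj, hsurj⟩ := exists_coding hK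
  choose f hf using fun x : K => hsurj (tab.getD (en x) 0) (tab_lt _ (hlt x))
  have hen0 : en 0 = 0 := by
    have h := hadd 0 0
    rw [Nat.xor_self, add_zero] at h
    exact h
  have hchar : ∀ x : K, x + x = 0 := by
    intro x
    apply hinj
    rw [hadd, Nat.xor_self, hen0]
  have hneg : ∀ x : K, -x = x := fun x => (eq_neg_of_add_eq_zero_left (hchar x)).symm
  have hsub : ∀ x y : K, x - y = x + y := fun x y => by rw [sub_eq_add_neg, hneg]
  have hccz : ∀ g : K → K, CCZEquiv f g → ¬ GivesRDS g := by
    intro g ⟨A, w, hA⟩ hg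
    obtain ⟨c, hc0, hc⟩ := exists_c hK hg
    -- differences of the graph avoid `c` in the second component after `A`
    have hgraph : ∀ x, ∃ y, A (x, f x) + w = (y, g y) := by
      intro x
      have h1 : A (x, f x) + w ∈ {p : K × K | p.2 = g p.1} := by
        rw [← hA]
        exact ⟨(x, f x), rfl, rfl⟩
      exact ⟨(A (x, f x) + w).1, Prod.ext rfl h1⟩
    have havoid : ∀ x x', (A (x + x', f x + f x')).2 ≠ c := by
      intro x x' h1
      obtain ⟨y, hy⟩ := hgraph x
      obtain ⟨y', hy'⟩ := hgraph x'
      have h2 : A (x + x', f x + f x') = (y - y', g y - g y') := by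
        have h3 : ((x + x', f x + f x') : K × K) = (x, f x) - (x', f x') := by
          rw [Prod.mk_sub_mk, hsub, hsub]
        rw [h3, map_sub, ← Prod.mk_sub_mk, ← hy, ← hy', add_sub_add_right_eq_sub]
      rw [h2] at h1
      exact hc _ _ h1
    -- the coding of the pairs
    let en2 : K × K → ℕ := fun p => en p.1 + 32 * en p.2
    have h2lt : ∀ p, en2 p < 1024 := by
      intro p
      have h1 := hlt p.1
      have h2 := hlt p.2
      change en p.1 + 32 * en p.2 < 1024
      omega
    have h2mod : ∀ p, en2 p % 32 = en p.1 := by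
      intro p
      have h1 := hlt p.1
      change (en p.1 + 32 * en p.2) % 32 = _
      omega
    have h2div : ∀ p, en2 p / 32 = en p.2 := by
      intro p
      have h1 := hlt p.1
      change (en p.1 + 32 * en p.2) / 32 = _
      omega
    have h2add : ∀ p q, en2 (p + q) = en2 p ^^^ en2 q := by
      intro p q
      have h1 : (en2 p ^^^ en2 q) % 32 = en (p + q).1 := by
        have := Nat.xor_mod_two_pow (a := en2 p) (b := en2 q) (n := 5)
        norm_num at this
        rw [this, h2mod, h2mod, ← hadd]
        rfl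
      have h2 : (en2 p ^^^ en2 q) / 32 = en (p + q).2 := by
        have := xor_div (en2 p) (en2 q) 5
        norm_num at this
        rw [this, h2div, h2div, ← hadd]
        rfl
      have h3 := Nat.div_add_mod (en2 p ^^^ en2 q) 32
      rw [h1, h2] at h3
      rw [← h3]
      change en (p + q).1 + 32 * en (p + q).2 = _
      ring
    have h2inj : Function.Injective en2 := by
      intro p q hpq
      apply Prod.ext
      · apply hinj
        rw [← h2mod, ← h2mod, hpq]
      · apply hinj
        rw [← h2div, ← h2div, hpq]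
    -- the flat
    let v : K × K := A.symm (0, c)
    let E : Finset (K × K) := Finset.univ.image fun x : K => A.symm (x, 0)
    have hE : ∀ p, p ∈ E ↔ (A p).2 = 0 := by
      intro p
      constructor
      · intro hp
        obtain ⟨x, -, rfl⟩ := Finset.mem_image.1 hp
        simp
      · intro hp
        refine Finset.mem_image.2 ⟨(A p).1, Finset.mem_univ _, ?_⟩
        apply A.injective
        rw [AddEquiv.apply_symm_apply]
        exact Prod.ext rfl hp.symm
    have hEcard : E.card = 32 := by
      rw [Finset.card_image_of_injective, Finset.card_univ, hK]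
      intro x y hxy
      exact congrArg Prod.fst (A.symm.injective hxy)
    apply not_P (v := en2 v) (h2lt v)
    refine ⟨E.image en2, ⟨?_, ?_⟩, ?_, ?_, ?_⟩
    · refine Finset.mem_image.2 ⟨0, (hE 0).2 (by rw [map_zero]; rfl), ?_⟩
      change en 0 + 32 * en 0 = 0
      rw [hen0]
    · intro x hx y hy
      obtain ⟨p, hp, rfl⟩ := Finset.mem_image.1 hx
      obtain ⟨q, hq, rfl⟩ := Finset.mem_image.1 hy
      refine Finset.mem_image.2 ⟨p + q, (hE _).2 ?_, h2add p q⟩
      rw [map_add, Prod.snd_add, (hE p).1 hp, (hE q).1 hq, add_zero]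
    · intro x hx
      obtain ⟨p, hp, rfl⟩ := Finset.mem_image.1 hx
      exact h2lt p
    · rw [Finset.card_image_of_injective _ h2inj, hEcard]
    · intro x hx
      obtain ⟨p, hp, rfl⟩ := Finset.mem_image.1 hx
      rw [← h2add]
      by_contra hout
      rw [Bool.not_eq_true] at hout
      obtain ⟨a, ha, hav⟩ := out_check _ (h2lt _) hout
      rw [h2div, h2mod] at hav
      obtain ⟨x, rfl⟩ := hsurj a ha
      rw [← hadd, ← hf, ← hf, ← hadd] at hav
      have h5 := hinj hav
      apply havoid x (x + (v + p).1)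
      have h6 : ((x + (x + (v + p).1), f x + f (x + (v + p).1)) : K × K) = v + p := by
        apply Prod.ext
        · change x + (x + (v + p).1) = (v + p).1
          rw [← add_assoc, hchar, zero_add]
        · exact h5.symm
      rw [h6, map_add, Prod.snd_add, (hE p).1 hp, add_zero]
      change (A (A.symm (0, c))).2 = c
      rw [AddEquiv.apply_symm_apply]
  refine ⟨f, ?_, fun g hg => hccz g (ccz_of_ea hg), hccz⟩
  intro a b ha
  rcases (Finset.univ.filter fun x => f (x + a) + f x = b).eq_empty_or_nonempty with h0 | ⟨x, hx⟩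
  · rw [h0]; simp
  · have hx' : f (x + a) + f x = b := (Finset.mem_filter.1 hx).2
    calc (Finset.univ.filter fun x => f (x + a) + f x = b).card ≤ ({x, x + a} : Finset K).card := by
          apply Finset.card_le_card
          intro y hy
          have hy' : f (y + a) + f y = b := (Finset.mem_filter.1 hy).2
          have h1 : f (x + a) + f x = f (y + a) + f y := by rw [hx', hy']
          have h2 := congrArg en h1
          rw [hadd, hadd, hf, hf, hf, hf, hadd, hadd] at h2
          have ha' : en a ≠ 0 := fun h => ha (hinj (h.trans hen0.symm))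
          rcases tab_apn (hlt a) (hlt x) (hlt y) ha' h2 with h3 | h3
          · rw [hinj h3]; simp
          · rw [← hadd] at h3
            rw [hinj h3]; simp
      _ ≤ 2 := Finset.card_le_two

end Pool.Agent.Results.MP_abc6c1_co.InverseF32
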